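import Mathlib
import Pool.Agent.Run7.h285.Q.Stm
import Pool.Agent.TH892.OW.B5a

/-!
# Project CRQ, piece Q12: splitting into blocks
-/

set_option autoImplicit false

namespace Run7.h209.Q

open Finset Filter MeasureTheory Topology
open Run7.h285.Q
open Pool.Agent.TH892.SW (ff wt)
open Pool.Agent.TH892.OW (fz S_facts)
open Pool.Agent.H442R2.EHI (evt_log_pow evt_log_ge)

lemma Q2_add (g : ℤ → ℝ) (s a b₀ : ℤ) (X P M' m H : ℕ) :
    Q2 g s a b₀ X (P + M') m H = Q2 g s a b₀ X P m H + Q2 g s a (b₀ + P) X M' m H := by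
  unfold Q2
  rw [← sum_add_distrib]
  refine sum_congr rfl fun c _ => ?_
  have h1 : Ioc b₀ (b₀ + ((P + M' : ℕ) : ℤ)) = Ioc b₀ (b₀ + P) ∪ Ioc (b₀ + (P : ℤ)) (b₀ + P + M') := by
    rw [Ioc_union_Ioc_eq_Ioc (by omega) (by omega)]
    push_cast
    rw [add_assoc]
  rw [h1, sum_union (Ioc_disjoint_Ioc_of_le le_rfl)]

/-- bounds for short blocks give bounds for long ones -/
lemma blocks (g : ℤ → ℝ) (s a : ℤ) (X P m H : ℕ) (A T : ℝ) (lo hi : ℤ) (hA : A ≤ P) (hP : 1 ≤ P)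
    (h : ∀ (b₁ : ℤ) (M₁ : ℕ), lo ≤ b₁ → b₁ + M₁ ≤ hi → A ≤ M₁ → M₁ ≤ 2 * P → Q2 g s a b₁ X M₁ m H ≤ M₁ * T) :
    ∀ (M : ℕ) (b₀ : ℤ), lo ≤ b₀ → b₀ + M ≤ hi → A ≤ M → Q2 g s a b₀ X M m H ≤ M * T := by
  intro M
  induction M using Nat.strong_induction_on with
  | _ M ih =>
    intro b₀ hlo hhi hAM
    by_cases hM : M ≤ 2 * P
    · exact h b₀ M hlo hhi hAM hM
    · push Not at hM
      obtain ⟨M', hM'⟩ : ∃ M', M = P + M' := ⟨M - P, by omega⟩
      rw [hM', Q2_add]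
      have h1 := h b₀ P hlo (by omega) hA (by omega)
      have h2 := ih M' (by omega) (b₀ + P) (by omega) (by omega) (by
        refine hA.trans ?_
        exact_mod_cast (by omega : P ≤ M'))
      push_cast
      linarith

lemma le_of_sq {x y : ℝ} (hy : 0 ≤ y) (h : x ^ 2 ≤ y ^ 2) : x ≤ y := by
  by_contra hc
  push Not at hc
  nlinarith

/-- one block -/
lemma one_blk {X M₁ m H a : ℕ} {s b₁ : ℤ} {e : ℤ} (hs : s = 1 ∨ s = -1) (hX : 1 ≤ X)
    (he : (H : ℤ) * (2 * a * (m + H) + |b₁|) ≤ e) (h2e : 2 * e ≤ X) (hM : 2 * ((M₁ : ℤ) * (m + H)) ≤ X) :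
    Blk s a b₁ X M₁ m H (max 1 (s * (a * m ^ 2 + b₁ * m) - 2 * X)) (max 1 (s * (a * m ^ 2 + b₁ * m) + 2 * X)) := by
  obtain ⟨V, hV⟩ : ∃ V : ℤ, V = s * (a * m ^ 2 + b₁ * m) := ⟨_, rfl⟩
  rw [← hV]
  refine ⟨le_max_left _ _, ?_, ?_, ?_⟩
  · omega
  · omega
  · intro c hc b hb n hn
    rw [mem_Icc] at hc
    rw [mem_Ioc] at hb hn
    by_cases h : s * qv a b c n ≤ 0
    · left; exact h
    · right
      push Not at h
      obtain ⟨t, ht⟩ : ∃ t, b = b₁ + t := ⟨b - b₁, by ring⟩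
      obtain ⟨i, hi⟩ : ∃ i : ℤ, (n : ℤ) = m + i := ⟨(n : ℤ) - m, by ring⟩
      have ht0 : 0 ≤ t := by omega
      have htM : t ≤ M₁ := by omega
      have hi0 : 0 ≤ i := by omega
      have hiH : i ≤ H := by omega
      have hn0 : (0 : ℤ) ≤ n := Int.natCast_nonneg n
      have hnH : (n : ℤ) ≤ m + H := by omega
      have htn0 : 0 ≤ t * n := mul_nonneg ht0 hn0
      have htn : 2 * (t * n) ≤ X := by
        have h1 : t * n ≤ M₁ * (m + H) := mul_le_mul htM hnH hn0 (by positivity)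
        linarith
      have ha0 : (0 : ℤ) ≤ a := Int.natCast_nonneg a
      have hm0 : (0 : ℤ) ≤ m := Int.natCast_nonneg m
      have hw : |i * (a * (2 * m + i) + b₁)| ≤ e := by
        rw [abs_mul, abs_of_nonneg hi0]
        refine le_trans ?_ he
        apply mul_le_mul hiH _ (abs_nonneg _) (by positivity)
        refine (abs_add_le _ _).trans ?_
        have h1 : |(a : ℤ) * (2 * m + i)| ≤ 2 * a * (m + H) := by
          rw [abs_of_nonneg (by positivity)]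
          have : (2 * (m : ℤ) + i) ≤ 2 * (m + H) := by omega
          calc (a : ℤ) * (2 * m + i) ≤ a * (2 * (m + H)) := mul_le_mul_of_nonneg_left this ha0
            _ = _ := by ring
        linarith
      obtain ⟨w, hwd⟩ : ∃ w, w = i * (a * (2 * m + i) + b₁) := ⟨_, rfl⟩
      rw [← hwd] at hw
      obtain ⟨hw1, hw2⟩ := abs_le.1 hw
      obtain ⟨V0, hV0⟩ : ∃ V0 : ℤ, V0 = a * m ^ 2 + b₁ * m := ⟨_, rfl⟩
      obtain ⟨tn, htnd⟩ : ∃ tn : ℤ, tn = t * n := ⟨_, rfl⟩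
      rw [← htnd] at htn0 htn
      have hq : qv a b c n = V0 + (c + w + tn) := by
        rw [hV0, htnd]
        unfold qv
        rw [hwd, ht, hi]
        ring
      rw [hq] at h ⊢
      rw [← hV0] at hV
      rw [mem_Icc]
      rcases hs with hs | hs
      · rw [hs] at h hV ⊢
        constructor
        · apply max_le
          · omega
          · omega
        · refine le_trans ?_ (le_max_right _ _)
          omega
      · rw [hs] at h hV ⊢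
        constructor
        · apply max_le
          · omega
          · omega
        · refine le_trans ?_ (le_max_right _ _)
          omega

/-- the blocks -/
theorem prep (ρ : ℝ) (C D B : ℕ) (hρ : 0 < ρ) : ∃ X₀ : ℕ, ∀ X : ℕ, X₀ ≤ X → ∀ (s b₀ : ℤ) (a M m H : ℕ),
    (s = 1 ∨ s = -1) → 1 ≤ a → (a : ℝ) ≤ (X : ℝ) ^ (1 - ρ) →
    1 ≤ H → (H : ℝ) ≤ Real.log X ^ D →
    (|(b₀ : ℝ)| + M) ^ 2 ≤ a * X * Real.log X ^ C → (a : ℝ) * (m + H) ^ 2 ≤ X * Real.log X ^ C →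
    ∃ P : ℕ, 1 ≤ P ∧ (X : ℝ) ^ (1 / 3 : ℝ) * Real.log X ^ B ≤ P ∧ ∀ (b₁ : ℤ) (M₁ : ℕ), b₀ ≤ b₁ → b₁ + M₁ ≤ b₀ + M →
      M₁ ≤ 2 * P → (M₁ : ℝ) ≤ (X : ℝ) ^ (1 - ρ / 3) ∧ ∃ u v : ℤ, Blk s a b₁ X M₁ m H u v ∧
        (v : ℝ) ≤ X * Real.log X ^ (C + 1) := by
  have hev : ∀ᶠ X : ℕ in atTop, (10000 : ℝ) ≤ Real.log X ∧
      Real.log X ^ (2 * D + C + 1) ≤ (X : ℝ) ^ ρ ∧
      Real.log X ^ C ≤ (X : ℝ) ^ (ρ / 3) ∧
      Real.log X ^ (2 * B + C + 1) ≤ (X : ℝ) ^ (1 / 3 : ℝ) := by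
    filter_upwards [evt_log_ge 10000, evt_log_pow (2 * D + C + 1) ρ hρ,
      evt_log_pow C (ρ / 3) (by positivity), evt_log_pow (2 * B + C + 1) (1 / 3) (by norm_num)] with X h1 h2 h3 h4
    exact ⟨h1, h2, h3, h4⟩
  obtain ⟨X₀, hX₀⟩ := eventually_atTop.1 hev
  refine ⟨X₀, ?_⟩
  intro X hX s b₀ a M m H hs ha1 haX hH1 hHD hb ha
  obtain ⟨hL, hLρ, hLC, hLB⟩ := hX₀ X hX
  obtain ⟨hX1, -⟩ := S_facts X hL
  have hx1 : (1 : ℝ) ≤ X := by exact_mod_cast hX1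
  obtain ⟨x, hx⟩ : ∃ x : ℝ, x = X := ⟨_, rfl⟩
  rw [← hx] at hx1 haX hb ha hHD hLρ hLC hLB ⊢
  have hx0 : 0 < x := by linarith
  obtain ⟨L, hLd⟩ : ∃ L : ℝ, L = Real.log X := ⟨_, rfl⟩
  have hLd' : Real.log x = L := by rw [hLd, hx]
  rw [hLd'] at hb ha hHD hLρ hLC hLB ⊢
  rw [← hLd] at hL
  have hL1 : 1 ≤ L := by linarith
  have hL0 : 0 < L := by linarith
  have hLC1 : 1 ≤ L ^ C := one_le_pow₀ hL1
  have hm0 : (0 : ℝ) ≤ m := Nat.cast_nonneg _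
  have hH0 : (1 : ℝ) ≤ H := by exact_mod_cast hH1
  have ha0 : (1 : ℝ) ≤ a := by exact_mod_cast ha1
  have hmH : 0 < (m : ℝ) + H := by linarith
  have hxx : x ^ ρ * x ^ (1 - ρ) = x := by
    rw [← Real.rpow_add hx0]
    have : ρ + (1 - ρ) = 1 := by ring
    rw [this, Real.rpow_one]
  have hmH2 : ((m : ℝ) + H) ^ 2 ≤ x * L ^ C := by
    refine le_trans ?_ ha
    have : 0 ≤ ((m : ℝ) + H) ^ 2 := sq_nonneg _
    nlinarith
  -- the block length
  refine ⟨⌊x / (4 * ((m : ℝ) + H))⌋₊, ?_⟩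
  have hPle : (⌊x / (4 * ((m : ℝ) + H))⌋₊ : ℝ) * (4 * ((m : ℝ) + H)) ≤ x := by
    have := Nat.floor_le (show 0 ≤ x / (4 * ((m : ℝ) + H)) by positivity)
    rwa [le_div_iff₀ (by positivity)] at this
  have hPge : x ^ (1 / 3 : ℝ) * L ^ B ≤ (⌊x / (4 * ((m : ℝ) + H))⌋₊ : ℝ) := by
    have h1 := Nat.lt_floor_add_one (x / (4 * ((m : ℝ) + H)))
    have hy1 : 1 ≤ x ^ (1 / 3 : ℝ) * L ^ B := by
      have h5 : 1 ≤ x ^ (1 / 3 : ℝ) := Real.one_le_rpow hx1 (by norm_num)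
      have h6 : 1 ≤ L ^ B := one_le_pow₀ hL1
      nlinarith
    have h2 : x ^ (1 / 3 : ℝ) * L ^ B + 1 ≤ x / (4 * ((m : ℝ) + H)) := by
      rw [le_div_iff₀ (by positivity)]
      apply le_of_sq hx0.le
      have h3 : (x ^ (1 / 3 : ℝ) * L ^ B + 1) ^ 2 ≤ (2 * (x ^ (1 / 3 : ℝ) * L ^ B)) ^ 2 :=
        pow_le_pow_left₀ (by linarith) (by linarith) 2
      have h13 : x ^ (1 / 3 : ℝ) * x ^ (1 / 3 : ℝ) * x ^ (1 / 3 : ℝ) = x := by
        rw [← Real.rpow_add hx0, ← Real.rpow_add hx0]; norm_num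
      have hp : 0 < x ^ (1 / 3 : ℝ) := by positivity
      calc ((x ^ (1 / 3 : ℝ) * L ^ B + 1) * (4 * ((m : ℝ) + H))) ^ 2
          = 16 * ((x ^ (1 / 3 : ℝ) * L ^ B + 1) ^ 2 * ((m : ℝ) + H) ^ 2) := by ring
        _ ≤ 16 * ((2 * (x ^ (1 / 3 : ℝ) * L ^ B)) ^ 2 * (x * L ^ C)) := by
            apply mul_le_mul_of_nonneg_left _ (by norm_num)
            exact mul_le_mul h3 hmH2 (by positivity) (by positivity)
        _ = 64 * L ^ (2 * B + C) * (x ^ (1 / 3 : ℝ) * x ^ (1 / 3 : ℝ) * x) := by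
            have e : (L ^ (2 * B + C) : ℝ) = L ^ B * L ^ B * L ^ C := by ring
            rw [e]; ring
        _ ≤ x ^ (1 / 3 : ℝ) * (x ^ (1 / 3 : ℝ) * x ^ (1 / 3 : ℝ) * x) := by
            apply mul_le_mul_of_nonneg_right _ (by positivity)
            refine le_trans ?_ hLB
            have e : (L ^ (2 * B + C + 1) : ℝ) = L * L ^ (2 * B + C) := by ring
            rw [e]
            apply mul_le_mul_of_nonneg_right _ (by positivity)
            linarith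
        _ = (x ^ (1 / 3 : ℝ) * x ^ (1 / 3 : ℝ) * x ^ (1 / 3 : ℝ)) * x := by ring
        _ = x ^ 2 := by rw [h13]; ring
    linarith
  refine ⟨?_, hPge, ?_⟩
  · have hy1 : 1 ≤ x ^ (1 / 3 : ℝ) * L ^ B := by
      have h5 : 1 ≤ x ^ (1 / 3 : ℝ) := Real.one_le_rpow hx1 (by norm_num)
      have h6 : 1 ≤ L ^ B := one_le_pow₀ hL1
      nlinarith
    exact_mod_cast hy1.trans hPge
  intro b₁ M₁ hb1 hb2 hM1
  -- sizes
  have hbb : |(b₁ : ℝ)| ≤ |(b₀ : ℝ)| + M := by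
    have h1 : (b₀ : ℝ) ≤ b₁ := by exact_mod_cast hb1
    have h2 : (b₁ : ℝ) ≤ b₀ + M := by
      have : b₁ ≤ b₀ + M := by omega
      exact_mod_cast this
    rw [abs_le]
    have h3 := neg_abs_le (b₀ : ℝ)
    have h4 := le_abs_self (b₀ : ℝ)
    have h5 : (0 : ℝ) ≤ M := Nat.cast_nonneg _
    constructor <;> linarith
  have hb12 : (b₁ : ℝ) ^ 2 ≤ a * x * L ^ C := by
    refine le_trans ?_ hb
    rw [← sq_abs]
    exact pow_le_pow_left₀ (abs_nonneg _) hbb 2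
  have hM12 : (M₁ : ℝ) ^ 2 ≤ a * x * L ^ C := by
    refine le_trans ?_ hb
    apply pow_le_pow_left₀ (Nat.cast_nonneg _)
    have h1 : (M₁ : ℝ) ≤ M := by
      have : M₁ ≤ M := by omega
      exact_mod_cast this
    have := abs_nonneg (b₀ : ℝ)
    linarith
  have haxL : (a : ℝ) * x * L ^ C ≤ x ^ (1 - ρ) * x * L ^ C := by gcongr
  refine ⟨?_, ?_⟩
  · apply le_of_sq (by positivity)
    refine hM12.trans (haxL.trans ?_)
    calc x ^ (1 - ρ) * x * L ^ C ≤ x ^ (1 - ρ) * x * x ^ (ρ / 3) := by gcongr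
      _ = (x ^ (1 - ρ / 3)) ^ 2 := by
          have e1 : x ^ (1 - ρ) * x * x ^ (ρ / 3) = x ^ (1 - ρ) * x ^ (1 : ℝ) * x ^ (ρ / 3) := by
            rw [Real.rpow_one]
          rw [e1, ← Real.rpow_add hx0, ← Real.rpow_add hx0, ← Real.rpow_natCast, ← Real.rpow_mul hx0.le]
          congr 1
          push_cast
          ring
  · -- the error
    have hE : (H : ℝ) * (2 * a * (m + H) + |(b₁ : ℝ)|) ≤ x / 2 := by
      apply le_of_sq (by positivity)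
      have h1 : (2 * (a : ℝ) * (m + H) + |(b₁ : ℝ)|) ^ 2 ≤ 10 * (a * x * L ^ C) := by
        have h2 : (2 * (a : ℝ) * (m + H)) ^ 2 ≤ 4 * (a * x * L ^ C) := by
          calc (2 * (a : ℝ) * (m + H)) ^ 2 = 4 * a * (a * (m + H) ^ 2) := by ring
            _ ≤ 4 * a * (x * L ^ C) := by gcongr
            _ = _ := by ring
        have h3 : |(b₁ : ℝ)| ^ 2 ≤ a * x * L ^ C := by rw [sq_abs]; exact hb12
        nlinarith [sq_nonneg (2 * (a : ℝ) * (m + H) - |(b₁ : ℝ)|)]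
      have h40 : 40 * L ^ (2 * D + C) ≤ x ^ ρ := by
        refine le_trans ?_ hLρ
        have e : (L ^ (2 * D + C + 1) : ℝ) = L * L ^ (2 * D + C) := by ring
        rw [e]
        apply mul_le_mul_of_nonneg_right _ (by positivity)
        linarith
      calc ((H : ℝ) * (2 * a * (m + H) + |(b₁ : ℝ)|)) ^ 2
          = (H : ℝ) ^ 2 * (2 * a * (m + H) + |(b₁ : ℝ)|) ^ 2 := by ring
        _ ≤ (L ^ D) ^ 2 * (10 * (x ^ (1 - ρ) * x * L ^ C)) := by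
            apply mul_le_mul
            · exact pow_le_pow_left₀ (by linarith) hHD 2
            · exact h1.trans (by linarith)
            · positivity
            · positivity
        _ = (40 * L ^ (2 * D + C)) * (x ^ (1 - ρ) * x) / 4 := by
            have e : (L ^ (2 * D + C) : ℝ) = (L ^ D) ^ 2 * L ^ C := by rw [← pow_mul, ← pow_add]; congr 1; ring
            rw [e]; ring
        _ ≤ x ^ ρ * (x ^ (1 - ρ) * x) / 4 := by gcongr
        _ = (x ^ ρ * x ^ (1 - ρ)) * x / 4 := by ring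
        _ = (x / 2) ^ 2 := by rw [hxx]; ring
    refine ⟨_, _, one_blk (e := (H : ℤ) * (2 * a * (m + H) + |b₁|)) hs hX1 le_rfl ?_ ?_, ?_⟩
    · have h1 : 2 * ((H : ℝ) * (2 * a * (m + H) + |(b₁ : ℝ)|)) ≤ X := by rw [← hx]; linarith
      exact_mod_cast h1
    · have h1 : 2 * ((M₁ : ℝ) * (m + H)) ≤ X := by
        have h2 : (M₁ : ℝ) ≤ 2 * (⌊x / (4 * ((m : ℝ) + H))⌋₊ : ℝ) := by exact_mod_cast hM1
        rw [← hx]
        nlinarith
      exact_mod_cast h1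
    · have hs1 : |(s : ℝ)| = 1 := by
        rcases hs with hs | hs <;> rw [hs] <;> norm_num
      have hV1 : (a : ℝ) * m ^ 2 ≤ x * L ^ C := by
        refine le_trans ?_ ha
        gcongr
        linarith
      have hV2 : |(b₁ : ℝ)| * m ≤ x * L ^ C := by
        apply le_of_sq (by positivity)
        calc (|(b₁ : ℝ)| * m) ^ 2 = (b₁ : ℝ) ^ 2 * (m : ℝ) ^ 2 := by rw [mul_pow, sq_abs]
          _ ≤ (a * x * L ^ C) * (m : ℝ) ^ 2 := by gcongr
          _ = (a * (m : ℝ) ^ 2) * (x * L ^ C) := by ring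
          _ ≤ (x * L ^ C) * (x * L ^ C) := by gcongr
          _ = _ := by ring
      have hV : |(s : ℝ) * (a * m ^ 2 + b₁ * m)| ≤ 2 * (x * L ^ C) := by
        rw [abs_mul, hs1, one_mul]
        refine (abs_add_le _ _).trans ?_
        rw [abs_of_nonneg (show (0 : ℝ) ≤ a * (m : ℝ) ^ 2 by positivity), abs_mul, abs_of_nonneg hm0]
        linarith
      have hV' := le_trans (le_abs_self _) hV
      have hxL : x * L ^ (C + 1) = L * (x * L ^ C) := by ring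
      have hxC : x ≤ x * L ^ C := by nlinarith
      rw [Int.cast_max]
      apply max_le
      · rw [Int.cast_one, hxL]
        nlinarith
      · push_cast
        rw [← hx, hxL]
        nlinarith

/-- Piece Q1. -/
theorem q1 (hQB : S_QB1) : S_Q1 := by
  obtain ⟨K₀, hK, H1⟩ := hQB
  refine ⟨K₀, hK, ?_⟩
  intro ρ U C D hρ
  obtain ⟨E1, hE1⟩ := H1 (ρ / 3) U (C + 1) D (by positivity)
  refine ⟨E1, fun E hE => ?_⟩
  obtain ⟨B, X1, hB⟩ := hE1 E hE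
  obtain ⟨X2, hX2⟩ := prep ρ C D B hρ
  refine ⟨B, max X1 X2, ?_⟩
  intro X hX s b₀ a M m H hs ha1 haX hH1 hHD hM hb ha
  obtain ⟨P, hP1, hPB, hP⟩ := hX2 X ((le_max_right _ _).trans hX) s b₀ a M m H hs ha1 haX hH1 hHD hb ha
  have key := blocks (ff ⌊Real.log X ^ E⌋₊) s a X P m H ((X : ℝ) ^ (1 / 3 : ℝ) * Real.log X ^ B)
    (X * (K₀ * H / Real.log X + (H : ℝ) ^ 2 / Real.log X ^ U)) b₀ (b₀ + M) hPB hP1 (by
      intro b₁ M₁ h1 h2 h3 h4
      obtain ⟨h5, u, v, h6, h7⟩ := hP b₁ M₁ h1 h2 h4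
      refine (hB X ((le_max_left _ _).trans hX) s a b₁ u v M₁ m H hs hH1 hHD h3 h5 h6 h7).trans (le_of_eq ?_)
      ring) M b₀ le_rfl le_rfl hM
  refine key.trans (le_of_eq ?_)
  ring

/-- Piece Q2. -/
theorem q2 (hQB : S_QB2) : S_Q2 := by
  intro ρ C D E u₀ hρ hE hu
  obtain ⟨X1, hB⟩ := hQB (ρ / 3) D E u₀ (by positivity) hE hu
  obtain ⟨X2, hX2⟩ := prep ρ C D 0 hρ
  refine ⟨max X1 X2, ?_⟩
  intro X hX s b₀ a M m H hs ha1 haX hH1 hHD hM hb ha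
  obtain ⟨P, hP1, hPB, hP⟩ := hX2 X ((le_max_right _ _).trans hX) s b₀ a M m H hs ha1 haX hH1 hHD hb ha
  rw [pow_zero, mul_one] at hPB
  have key := blocks (fz ⌊Real.log X ^ (1 / (u₀ : ℝ))⌋₊ ⌊Real.log X ^ E⌋₊) s a X P m H ((X : ℝ) ^ (1 / 3 : ℝ))
    (X * (H * √(Real.log X) + (H : ℝ) ^ 2 / Real.log (Real.log X) ^ 2)) b₀ (b₀ + M) hPB hP1 (by
      intro b₁ M₁ h1 h2 h3 h4
      obtain ⟨h5, u, v, h6, -⟩ := hP b₁ M₁ h1 h2 h4
      refine (hB X ((le_max_left _ _).trans hX) s a b₁ u v M₁ m H hs hH1 hHD h3 h5 h6).trans (le_of_eq ?_)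
      ring) M b₀ le_rfl le_rfl hM
  refine key.trans (le_of_eq ?_)
  ring

end Run7.h209.Q
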