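import Mathlib
import Pool.Agent.Run7.h285.Q.Stm
import Pool.Agent.TH892.OW.B5a

/-!
# Project CRQ, piece QB1: the second moment of `ff` for one block
-/

set_option autoImplicit false

namespace Run7.h209.Q

open Finset Filter MeasureTheory Topology
open Run7.h285.Q
open Run7.h757.CR (S_APM)
open Pool.Agent.TH892.SW (ff wt)
open Pool.Agent.H373R2.T7 (pz Vz lamz)
open Pool.Agent.H442R2.EHI (evt_log_pow evt_log_ge)
open Pool.Agent.TH892.OW (ff_sq primes_int wt_sum Vz_log evt_ll S_facts)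

/-- the diagonal -/
theorem ff_int {X z : ℕ} {u v : ℤ} (hL : 10000 ≤ Real.log X) (hLX : Real.log X ^ 2 ≤ √(X : ℝ))
    (hV : (Vz z)⁻¹ ^ 2 ≤ Real.log X) (huv : v - u ≤ 7 * X) :
    ∑ k ∈ Icc u v, ff z k ^ 2 ≤ 600 * X / Real.log X := by
  obtain ⟨hX1, hs1, hs2, hs3, hs4, hs5, hs6⟩ := S_facts X hL
  set L := Real.log X with hLdef
  have hL0 : 0 < L := by linarith
  have hX0 : (1 : ℝ) ≤ X := by exact_mod_cast hX1
  have hI : ∀ k ∈ Icc u v, u ≤ k ∧ k ≤ u + 2 * ((4 * X : ℕ) : ℤ) := by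
    intro k hk
    rw [mem_Icc] at hk
    push_cast
    constructor <;> omega
  have h1 := primes_int (4 * X) (by omega) u (Icc u v) hI
  have h2 := wt_sum (4 * X) (Nat.sqrt X) (by omega) u (Icc u v) hI
  have hp : (((Icc u v).filter (fun v : ℤ => v.toNat.Prime)).card : ℝ) ≤ 240 * X / L := by
    refine h1.trans ?_
    push_cast
    have h3 : L ≤ Real.log (4 * X) := Real.log_le_log (by linarith) (by linarith)
    rw [← mul_div_assoc]
    apply div_le_div₀ (by positivity) (by linarith) hL0 h3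
  have hw : ∑ v ∈ (Icc u v).filter (fun v => 2 ≤ v), wt v.toNat ^ 2 ≤ 59 * X / L ^ 2 := by
    refine h2.trans ?_
    push_cast
    have hT0 : 0 < Real.log (Nat.sqrt X : ℝ) := by nlinarith
    have h4 : (1 / Real.log (Nat.sqrt X : ℝ)) ^ 2 ≤ 25 / 4 / L ^ 2 := by
      rw [div_pow, one_pow, div_le_div_iff₀ (by positivity) (by positivity)]
      nlinarith
    have h5 : (Nat.sqrt X : ℝ) ≤ X / L ^ 2 := by
      rw [le_div_iff₀ (by positivity)]
      calc (Nat.sqrt X : ℝ) * L ^ 2 ≤ √(X : ℝ) * √(X : ℝ) := by gcongr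
        _ = X := Real.mul_self_sqrt (by linarith)
    calc 9 / 4 * (Nat.sqrt X : ℝ) + (2 * (4 * (X : ℝ)) + 1) * (1 / Real.log (Nat.sqrt X : ℝ)) ^ 2
        ≤ 9 / 4 * (X / L ^ 2) + (9 * X) * (25 / 4 / L ^ 2) := by
          apply add_le_add
          · linarith
          · apply mul_le_mul _ h4 (by positivity) (by positivity)
            linarith
      _ = (234 / 4) * (X / L ^ 2) := by ring
      _ ≤ 59 * (X / L ^ 2) := by
          have : 0 ≤ X / L ^ 2 := by positivity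
          linarith
      _ = _ := by ring
  calc ∑ k ∈ Icc u v, ff z k ^ 2
      ≤ ∑ k ∈ Icc u v, (2 * (if k.toNat.Prime then (1 : ℝ) else 0) +
          2 * (Vz z)⁻¹ ^ 2 * (if 2 ≤ k then wt k.toNat ^ 2 else 0)) := sum_le_sum fun k _ => ff_sq z k
    _ = 2 * (((Icc u v).filter (fun v : ℤ => v.toNat.Prime)).card : ℝ) +
          2 * (Vz z)⁻¹ ^ 2 * ∑ v ∈ (Icc u v).filter (fun v => 2 ≤ v), wt v.toNat ^ 2 := by
        rw [sum_add_distrib, ← mul_sum, ← mul_sum, sum_filter]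
        congr 2
        rw [card_filter]
        push_cast
        rfl
    _ ≤ 2 * (240 * X / L) + 2 * L * (59 * X / L ^ 2) := by
        have hw0 : 0 ≤ ∑ v ∈ (Icc u v).filter (fun v => 2 ≤ v), wt v.toNat ^ 2 :=
          sum_nonneg fun _ _ => sq_nonneg _
        apply add_le_add
        · linarith
        · apply mul_le_mul _ hw hw0 (by positivity)
          linarith
    _ = 598 * (X / L) := by field_simp; ring
    _ ≤ 600 * (X / L) := by
        have : 0 ≤ X / L := by positivity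
        linarith
    _ = _ := by ring

/-- one block, with an interval containing all positive values -/
theorem blk' (hQ0 : S_Q0) {X m M H U C D BA z : ℕ} {s a b₀ u v : ℤ} {Y Y' : ℝ} (hs : s = 1 ∨ s = -1)
    (hL : 10000 ≤ Real.log X) (hLX : Real.log X ^ 2 ≤ √(X : ℝ))
    (hV : (Vz z)⁻¹ ^ 2 ≤ Real.log X) (hff : ∀ y : ℤ, |ff z y| ≤ 3 * Real.log X)
    (hY0 : 0 ≤ Y) (hY0' : 0 ≤ Y') (hYY : Y * Y' = X)
    (hLX2 : 72 * Real.log X ^ (3 * D + U + 4) ≤ Y) (hLX3 : Real.log X ^ BA ≤ Y)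
    (hLX4 : Real.log X ^ D + 1 ≤ X)
    (hAPM : ∀ q M : ℕ, 1 ≤ q → (q : ℝ) ≤ Real.log X ^ D →
      (X : ℝ) ^ (1 / 3 : ℝ) * Real.log X ^ BA ≤ M → (M : ℝ) * Real.log X ^ BA ≤ X →
      ∑ c ∈ Icc (-(q : ℤ)) ⌊X * Real.log X ^ C⌋₊, (∑ t ∈ Icc (1 : ℤ) M, ff z (c + q * t)) ^ 2 ≤
        X * (M : ℝ) ^ 2 / Real.log X ^ (2 * (U + 3)))
    (hH1 : 1 ≤ H) (hHD : (H : ℝ) ≤ Real.log X ^ D) (hM : (X : ℝ) ^ (1 / 3 : ℝ) * Real.log X ^ BA ≤ M)
    (hM2 : (M : ℝ) ≤ Y') (hBlk : Blk s a b₀ X M m H u v) (hv : (v : ℝ) ≤ X * Real.log X ^ C) :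
    Q2 (ff z) s a b₀ X M m H ≤ X * M * (600 * H / Real.log X + (H : ℝ) ^ 2 / Real.log X ^ U) := by
  obtain ⟨hu, huv, hlen, -⟩ := id hBlk
  obtain ⟨hX1, -⟩ := S_facts X hL
  have hX0 : (1 : ℝ) ≤ X := by exact_mod_cast hX1
  have hdiag := ff_int hL hLX hV hlen
  set L := Real.log X with hLdef
  have hL0 : 0 < L := by linarith
  have hL1 : 1 ≤ L := by linarith
  have hH0 : (1 : ℝ) ≤ H := by exact_mod_cast hH1
  have hM0 : (0 : ℝ) ≤ M := Nat.cast_nonneg _
  have hR : ∀ d ∈ Icc 1 H, ∀ r : ℤ,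
      ∑ c ∈ (Icc (u - d) (v - d * M)).filter (fun c => c + d * r ∈ Icc u v),
        |ff z (c + d * r)| * |∑ t ∈ Icc (1 : ℤ) M, ff z (c + d * t)| ≤ X * M / L ^ (U + 1) := by
    intro d hd r
    rw [mem_Icc] at hd
    set T : ℤ → ℝ := fun c => ∑ t ∈ Icc (1 : ℤ) M, ff z (c + d * t) with hT
    have h1 : ∑ c ∈ (Icc (u - d) (v - d * M)).filter (fun c => c + d * r ∈ Icc u v),
        |ff z (c + d * r)| * |T c| ≤ 3 * L * ∑ c ∈ Icc (u - d) (v - d * M), |T c| := by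
      rw [mul_sum]
      calc _ ≤ ∑ c ∈ (Icc (u - d) (v - d * M)).filter (fun c => c + d * r ∈ Icc u v),
            3 * L * |T c| := by
            apply sum_le_sum
            intro c _
            exact mul_le_mul_of_nonneg_right (hff _) (abs_nonneg _)
        _ ≤ _ := by
            apply sum_le_sum_of_subset_of_nonneg (filter_subset _ _)
            intro c _ _
            positivity
    have hdr : (d : ℝ) ≤ L ^ D := le_trans (by exact_mod_cast hd.2) hHD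
    have hcard : ((Icc (u - d) (v - d * M)).card : ℝ) ≤ 8 * X := by
      rw [Int.card_Icc]
      have h3 : (v - (d : ℤ) * M + 1 - (u - d)).toNat ≤ 7 * X + d + 1 := by
        have : (0 : ℤ) ≤ (d : ℤ) * M := by positivity
        omega
      have h4 : ((v - (d : ℤ) * M + 1 - (u - d)).toNat : ℝ) ≤ 7 * X + d + 1 := by
        exact_mod_cast h3
      linarith
    have hcs : (∑ c ∈ Icc (u - d) (v - d * M), |T c|) ^ 2 ≤ (3 * X * M / L ^ (U + 3)) ^ 2 := by
      refine sq_sum_le_card_mul_sum_sq.trans ?_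
      have h5 := hAPM d M (by omega) hdr hM
        (by
          calc (M : ℝ) * L ^ BA ≤ Y' * Y := mul_le_mul hM2 hLX3 (by positivity) hY0'
            _ = X := by rw [mul_comm, hYY])
      have h6 : ∑ c ∈ Icc (u - d) (v - d * M), |T c| ^ 2 ≤
          ∑ c ∈ Icc (-(d : ℤ)) ⌊X * L ^ C⌋₊,
            (∑ t ∈ Icc (1 : ℤ) M, ff z (c + d * t)) ^ 2 := by
        have h7 : ∀ c, |T c| ^ 2 = (∑ t ∈ Icc (1 : ℤ) M, ff z (c + d * t)) ^ 2 := by
          intro c
          rw [sq_abs, hT]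
        rw [sum_congr rfl (fun c _ => h7 c)]
        apply sum_le_sum_of_subset_of_nonneg
        · intro c hc
          rw [mem_Icc] at hc ⊢
          have h8 : v.toNat ≤ ⌊X * L ^ C⌋₊ := by
            apply Nat.le_floor
            have : ((v.toNat : ℤ) : ℝ) = (v : ℝ) := by rw [Int.toNat_of_nonneg (by omega)]
            rw [← Int.cast_natCast, this]
            exact hv
          have h9 : (0 : ℤ) ≤ (d : ℤ) * M := by positivity
          constructor
          · omega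
          · omega
        · intro c _ _; positivity
      calc ((Icc (u - d) (v - d * M)).card : ℝ) * ∑ c ∈ Icc (u - d) (v - d * M), |T c| ^ 2
          ≤ (8 * X) * (X * (M : ℝ) ^ 2 / L ^ (2 * (U + 3))) := by
            apply mul_le_mul hcard (h6.trans h5) (sum_nonneg fun _ _ => by positivity) (by positivity)
        _ ≤ (9 * X) * (X * (M : ℝ) ^ 2 / L ^ (2 * (U + 3))) := by gcongr; norm_num
        _ = _ := by
            have e : (L ^ (2 * (U + 3)) : ℝ) = (L ^ (U + 3)) ^ 2 := by rw [← pow_mul]; congr 1; ring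
            rw [e]; ring
    have hsum : ∑ c ∈ Icc (u - d) (v - d * M), |T c| ≤ 3 * X * M / L ^ (U + 3) :=
      (pow_le_pow_iff_left₀ (sum_nonneg fun _ _ => abs_nonneg _) (by positivity) (by norm_num)).mp hcs
    refine h1.trans ?_
    calc 3 * L * ∑ c ∈ Icc (u - d) (v - d * M), |T c| ≤ 3 * L * (3 * X * M / L ^ (U + 3)) := by
          gcongr
      _ = 9 * (X * M / L ^ (U + 1)) / L := by
          have e : (L ^ (U + 3) : ℝ) = L ^ (U + 1) * L * L := by ring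
          rw [e]; field_simp; ring
      _ ≤ _ := by
          rw [div_le_iff₀ hL0]
          have : 0 ≤ X * M / L ^ (U + 1) := by positivity
          nlinarith
  have hE := hQ0 (ff z) (3 * L) (X * M / L ^ (U + 1)) s a b₀ X M m H u v
    (fun k hk => by unfold ff; rw [if_neg (by omega)]) hff hs (by positivity) hBlk hR
  refine hE.trans ?_
  have t1 : (H : ℝ) * M * (∑ k ∈ Icc u v, ff z k ^ 2) ≤ X * M * (600 * H / L) := by
    calc (H : ℝ) * M * (∑ k ∈ Icc u v, ff z k ^ 2) ≤ H * M * (600 * X / L) := by gcongr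
      _ = _ := by ring
  have hHM : 0 ≤ (X : ℝ) * M * (H : ℝ) ^ 2 / L ^ (U + 1) := by positivity
  have t2 : 8 * (H : ℝ) ^ 3 * (M : ℝ) ^ 2 * (3 * L) ^ 2 ≤ X * M * (H : ℝ) ^ 2 / L ^ (U + 1) := by
    calc 8 * (H : ℝ) ^ 3 * (M : ℝ) ^ 2 * (3 * L) ^ 2 = 72 * H ^ 3 * L ^ 2 * (M * M) := by ring
      _ ≤ 72 * (L ^ D) ^ 3 * L ^ 2 * (M * Y') := by gcongr
      _ = (72 * L ^ (3 * D + U + 4)) * (M * Y') / L ^ (U + 2) := by
          have e : (L ^ (3 * D + U + 4) : ℝ) = (L ^ D) ^ 3 * L ^ 2 * L ^ (U + 2) := by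
            rw [← pow_mul, ← pow_add, ← pow_add]; congr 1; ring
          rw [e]; field_simp
      _ ≤ Y * (M * Y') / L ^ (U + 2) := by gcongr
      _ = X * M / L ^ (U + 2) := by
          have : Y * (M * Y') = (Y * Y') * M := by ring
          rw [this, hYY]
      _ ≤ X * M * (H : ℝ) ^ 2 / L ^ (U + 1) := by
          apply div_le_div₀ (by positivity) _ (by positivity) (pow_le_pow_right₀ hL1 (by omega))
          have : 1 ≤ (H : ℝ) ^ 2 := one_le_pow₀ hH0
          have h9 : 0 ≤ (X : ℝ) * M := by positivity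
          nlinarith
  have t3 : (H : ℝ) ^ 2 * (X * M / L ^ (U + 1)) = X * M * (H : ℝ) ^ 2 / L ^ (U + 1) := by ring
  rw [t3]
  have t4 : X * M * (H : ℝ) ^ 2 / L ^ (U + 1) + X * M * (H : ℝ) ^ 2 / L ^ (U + 1) ≤
      X * M * ((H : ℝ) ^ 2 / L ^ U) := by
    have e : X * M * ((H : ℝ) ^ 2 / L ^ U) = L * (X * M * (H : ℝ) ^ 2 / L ^ (U + 1)) := by
      have hp : L ^ U ≠ 0 := by positivity
      have e2 : (L ^ (U + 1) : ℝ) = L ^ U * L := pow_succ L U
      rw [e2]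
      field_simp
    rw [e]
    nlinarith
  calc _ ≤ X * M * (600 * H / L) + X * M * (H : ℝ) ^ 2 / L ^ (U + 1) + X * M * (H : ℝ) ^ 2 / L ^ (U + 1) := by
        linarith
    _ ≤ X * M * (600 * H / L) + X * M * ((H : ℝ) ^ 2 / L ^ U) := by linarith
    _ = _ := by ring

/-- Piece QB1. -/
theorem qb1 (hQ0 : S_Q0) (hAPM : S_APM) : S_QB1 := by
  refine ⟨600, by norm_num, ?_⟩
  intro δ U C D hδ
  obtain ⟨E1, hE1⟩ := hAPM (2 * (U + 3)) C D
  refine ⟨max E1 1, ?_⟩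
  intro E hE
  obtain ⟨BA, X1, hBA⟩ := hE1 E ((le_max_left _ _).trans hE)
  have hE' : 1 ≤ E := (le_max_right _ _).trans hE
  obtain ⟨X2, hX2⟩ := Pool.Agent.TH892.SW.sq_ff E
  obtain ⟨CV, hCV1, hCV⟩ := Vz_log
  have hev : ∀ᶠ X : ℕ in atTop, (10000 : ℝ) ≤ Real.log X ∧
      CV ^ 2 * (E : ℝ) ^ 4 * Real.log (Real.log X) ^ 4 ≤ Real.log X ^ (1 : ℝ) ∧
      Real.log X ^ 2 ≤ (X : ℝ) ^ (1 / 2 : ℝ) ∧
      Real.log X ^ (3 * D + U + 5) ≤ (X : ℝ) ^ δ ∧
      Real.log X ^ BA ≤ (X : ℝ) ^ δ ∧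
      Real.log X ^ (D + 1) ≤ (X : ℝ) ^ (1 / 3 : ℝ) := by
    filter_upwards [evt_log_ge 10000, evt_ll 4 1 (CV ^ 2 * (E : ℝ) ^ 4) (by norm_num),
      evt_log_pow 2 (1 / 2) (by norm_num), evt_log_pow (3 * D + U + 5) δ hδ,
      evt_log_pow BA δ hδ, evt_log_pow (D + 1) (1 / 3) (by norm_num)] with X h1 h2 h3 h4 h5 h6
    exact ⟨h1, h2, h3, h4, h5, h6⟩
  obtain ⟨X3, hX3⟩ := eventually_atTop.1 hev
  refine ⟨BA, max (max X1 X2) X3, ?_⟩
  intro X hX s a b₀ u v M m H hs hH1 hHD hM hM2 hBlk hv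
  obtain ⟨hL, hll, hLX, hLX2, hLX3, hLX5⟩ := hX3 X ((le_max_right _ _).trans hX)
  have hBX := hBA X ((le_max_left _ _).trans ((le_max_left _ _).trans hX))
  have hsf := hX2 X ((le_max_right _ _).trans ((le_max_left _ _).trans hX))
  obtain ⟨hX1, -⟩ := S_facts X hL
  have hX0 : (1 : ℝ) ≤ X := by exact_mod_cast hX1
  have hX00 : (0 : ℝ) < X := by linarith
  rw [← Real.sqrt_eq_rpow] at hLX
  set L := Real.log X with hLdef
  have hL1 : 1 ≤ L := by linarith
  have hL0 : 0 < L := by linarith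
  set z := ⌊L ^ E⌋₊ with hz
  have hLE : L ≤ L ^ E := by
    calc L = L ^ 1 := (pow_one _).symm
      _ ≤ L ^ E := pow_le_pow_right₀ hL1 hE'
  have hz3 : 3 ≤ z := by
    rw [hz]; apply Nat.le_floor; push_cast; linarith
  have hzle : (z : ℝ) ≤ L ^ E := Nat.floor_le (by positivity)
  have hff := (hsf z (by omega) hzle).1
  have hlogz : Real.log z ≤ E * Real.log L := by
    have h1 : (0 : ℝ) < z := by exact_mod_cast (by omega : 0 < z)
    have := Real.log_le_log h1 hzle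
    rwa [Real.log_pow] at this
  have hlz0 : 0 ≤ Real.log z := Real.log_natCast_nonneg z
  have hV : (Vz z)⁻¹ ^ 2 ≤ L := by
    have h1 := hCV z hz3
    have h2 : 0 ≤ (Vz z)⁻¹ := by
      have := Pool.Agent.H373R2.T7.Vz_ge z (by omega)
      apply inv_nonneg.2
      refine le_trans ?_ this
      positivity
    rw [Real.rpow_one] at hll
    calc (Vz z)⁻¹ ^ 2 ≤ (CV * Real.log z ^ 2) ^ 2 := pow_le_pow_left₀ h2 h1 2
      _ ≤ (CV * (E * Real.log L) ^ 2) ^ 2 := by gcongr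
      _ = CV ^ 2 * (E : ℝ) ^ 4 * Real.log L ^ 4 := by ring
      _ ≤ L := hll
  have hLX2' : 72 * L ^ (3 * D + U + 4) ≤ (X : ℝ) ^ δ := by
    refine le_trans ?_ hLX2
    have : (L ^ (3 * D + U + 5) : ℝ) = L * L ^ (3 * D + U + 4) := by ring
    rw [this]
    have h3 : 0 ≤ L ^ (3 * D + U + 4) := by positivity
    nlinarith
  have hX13 : (X : ℝ) ^ (1 / 3 : ℝ) ≤ X := by
    calc (X : ℝ) ^ (1 / 3 : ℝ) ≤ (X : ℝ) ^ (1 : ℝ) := Real.rpow_le_rpow_of_exponent_le hX0 (by norm_num)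
      _ = X := Real.rpow_one _
  have hLD1 : 1 ≤ L ^ D := one_le_pow₀ hL1
  have hLX4 : L ^ D + 1 ≤ X := by
    have : (L ^ (D + 1) : ℝ) = L * L ^ D := by ring
    rw [this] at hLX5
    nlinarith
  have hYY : (X : ℝ) ^ δ * (X : ℝ) ^ (1 - δ) = X := by
    rw [← Real.rpow_add hX00]
    have : δ + (1 - δ) = 1 := by ring
    rw [this, Real.rpow_one]
  exact blk' hQ0 hs hL hLX hV hff (by positivity) (by positivity) hYY hLX2' hLX3 hLX4 hBX hH1 hHD hM hM2 hBlk hv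

end Run7.h209.Q
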